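import Pool.Agent.Y302.PS.Many
import Pool.Agent.Y561.KS.Cohen
import Pool.Agent.W910.FC.Collapse

/-!
# Transitive on `k`-sections, continuum many orbits on `(k + 1)`-sections, with `𝔠 = ℵ₂`

Martin's axiom for `ℵ₁` dense sets together with `𝔠 ≤ ℵ₂` is forced by a preordered set of
conditions. It contradicts the continuum hypothesis and implies Martin's axiom for σ-centered
preordered sets and fewer than `𝔠` dense sets (equivalent to `𝔭 = 𝔠` by a theorem of Bell), which
follows from the continuum hypothesis as well and implies that for every `k ≥ 2` there is a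
cofinitary group of permutations of `ℕ` which is transitive even on ordered `k`-sections and has
continuum many orbits on `(k + 1)`-sections.

The forcing language is the one of `Pool.Agent.Helper669.Forcing`: a sentence is the set of the
conditions which force it, `fnot`, `fand`, `fall` are the primitive connectives and `fimp`, `fex`
are defined from them classically. The sentence `MartinHolds P X` is the translation into the
forcing language of the proposition `MartinFor X` (both are in `Pool.Agent.W684.FM.Defs`), which is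
Martin's axiom for preorders with underlying set `X` and `X`-indexed families of dense sets;
`ContinuumLe P Y` says that in the extension there is a map from `Y` onto the set of all functions
from the natural numbers to themselves.
-/

set_option autoImplicit false

namespace Pool.Agent.Results.MP_618ed1_al.MartinsAxiomForced

open Cardinal Pool.Agent.Helper669.Forcing Pool.Agent.W684.FM

/-- `P` is a `k`-section of `ℕ`: an unordered partition of `ℕ` into exactly `k` infinite sets. -/
def IsSection (k : ℕ) (P : Set (Set ℕ)) : Prop :=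
  P.Finite ∧ P.ncard = k ∧ (∀ A ∈ P, A.Infinite) ∧ (∀ A ∈ P, ∀ B ∈ P, A ≠ B → Disjoint A B) ∧
    ⋃₀ P = Set.univ

/-- The group `G` of permutations of `ℕ` is transitive on `k`-sections. -/
def TransOnSections (G : Subgroup (Equiv.Perm ℕ)) (k : ℕ) : Prop :=
  ∀ P Q : Set (Set ℕ), IsSection k P → IsSection k Q →
    ∃ g ∈ G, (fun A : Set ℕ => g '' A) '' P = Q

/-- The group `G` is transitive on ordered `k`-sections: for any two colourings of `ℕ` by `k`
colours, each colour used infinitely often, a member of `G` carries the first to the second. -/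
def TransOnOrderedSections (G : Subgroup (Equiv.Perm ℕ)) (k : ℕ) : Prop :=
  ∀ c c' : ℕ → Fin k, (∀ j, {x | c x = j}.Infinite) → (∀ j, {x | c' x = j}.Infinite) →
    ∃ g ∈ G, ∀ n, c' (g n) = c n

/-- The group `G` has at least continuum many orbits on `m`-sections: there is a set of `𝔠` many
`m`-sections no two different members of which are related by an element of `G`. -/
def ManyOrbits (G : Subgroup (Equiv.Perm ℕ)) (m : ℕ) : Prop :=
  ∃ S : Set (Set (Set ℕ)), #S = 𝔠 ∧ (∀ P ∈ S, IsSection m P) ∧
    ∀ P ∈ S, ∀ Q ∈ S, P ≠ Q → ∀ g ∈ G, (fun A : Set ℕ => g '' A) '' P ≠ Q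

/-- `G` is cofinitary: every nonidentity element has only finitely many fixed points. -/
def Cofinitary (G : Subgroup (Equiv.Perm ℕ)) : Prop :=
  ∀ g ∈ G, g ≠ 1 → {x | g x = x}.Finite

/-- The preordered set `P` is σ-centered: it is the union of countably many sets `C n` such that
every finite subset of `C n` has a lower bound in `P` (a smaller condition is stronger). -/
def SigmaCentered (P : Type) [Preorder P] : Prop :=
  ∃ C : ℕ → Set P, (∀ p, ∃ n, p ∈ C n) ∧
    ∀ (n : ℕ) (s : Finset P), (s : Set P) ⊆ C n → ∃ q : P, ∀ p ∈ s, q ≤ p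

/-- Martin's axiom for σ-centered preordered sets: for every nonempty σ-centered preordered set
`P` and every family of fewer than `𝔠` dense subsets of `P` there is a filter in `P` which meets
each of them. -/
def MartinAxiomSigmaCentered : Prop :=
  ∀ (P : Type) [Preorder P] [Nonempty P], SigmaCentered P →
    ∀ 𝒟 : Set (Set P), #𝒟 < 𝔠 → (∀ D ∈ 𝒟, ∀ p : P, ∃ q ∈ D, q ≤ p) →
      ∃ G : Set P, G.Nonempty ∧ (∀ p ∈ G, ∀ q : P, p ≤ q → q ∈ G) ∧
        (∀ p ∈ G, ∀ q ∈ G, ∃ r ∈ G, r ≤ p ∧ r ≤ q) ∧ ∀ D ∈ 𝒟, ∃ p ∈ G, p ∈ D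

/-- The countable chain condition: every set of pairwise incompatible conditions is countable. -/
def IsCCC (P : Type) [Preorder P] : Prop :=
  ∀ A : Set P, (∀ p ∈ A, ∀ q ∈ A, p ≠ q → ¬ ∃ r : P, r ≤ p ∧ r ≤ q) → A.Countable

/-- Martin's axiom for `ℵ₁` dense sets: for every nonempty preordered set `P` with the countable
chain condition and every family of at most `ℵ₁` dense subsets of `P` there is a filter in `P`
which meets each of them. -/
def MartinAxiomAleph1 : Prop :=
  ∀ (P : Type) [Preorder P] [Nonempty P], IsCCC P →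
    ∀ 𝒟 : Set (Set P), #𝒟 ≤ ℵ₁ → (∀ D ∈ 𝒟, ∀ p : P, ∃ q ∈ D, q ≤ p) →
      ∃ G : Set P, G.Nonempty ∧ (∀ p ∈ G, ∀ q : P, p ≤ q → q ∈ G) ∧
        (∀ p ∈ G, ∀ q ∈ G, ∃ r ∈ G, r ≤ p ∧ r ≤ q) ∧ ∀ D ∈ 𝒟, (G ∩ D).Nonempty

theorem ma_convert (h : MartinAxiomSigmaCentered) : Pool.Agent.Y302.PS.MASigmaCentered := by
  intro P _ _ hP 𝒟 h𝒟 hD
  obtain ⟨G, h1, h2, h3, h4⟩ := h P (by
    obtain ⟨c, hc⟩ := hP
    exact ⟨fun n => {p | c p = n}, fun p => ⟨c p, rfl⟩, fun n s hs =>
      hc n s fun p hp => hs (Finset.mem_coe.2 hp)⟩) 𝒟 h𝒟 (fun D hDD p => by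
    obtain ⟨q, hq1, hq2⟩ := hD D hDD p
    exact ⟨q, hq2, hq1⟩)
  exact ⟨G, ⟨h1, h2, h3⟩, fun D hDD => by
    obtain ⟨p, hp1, hp2⟩ := h4 D hDD
    exact ⟨p, hp1, hp2⟩⟩

/-- (1) There is a preordered set `P` of forcing conditions such that every condition forces that
`ω₁` is preserved, that Martin's axiom for `ℵ₁` dense sets holds and that the continuum is at most
`ℵ₂`; (2), (3) the plain forms of the latter two sentences. (4) Martin's axiom for `ℵ₁` dense sets
contradicts the continuum hypothesis, and together with `𝔠 ≤ ℵ₂` it implies Martin's axiom for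
σ-centered sets and fewer than `𝔠` dense sets, (5) which follows from the continuum hypothesis as
well. (6) Martin's axiom for σ-centered sets implies that for every `k ≥ 2` there is a cofinitary
group of permutations of `ℕ` which is transitive on `k`-sections, even on ordered ones, has
continuum many orbits on `(k + 1)`-sections, and so is not transitive on them. -/
theorem result :
    (∃ (P : Type) (_ : Preorder P), Nonempty P ∧ ∀ p : P,
      p ∈ OmegaOnePreserved P ∧ p ∈ MartinHolds P Om1 ∧
        p ∈ ContinuumLe P (ℵ_ 2 : Cardinal.{0}).out) ∧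
    (MartinFor Om1 ↔ MartinAxiomAleph1) ∧
    ((∃ E : (ℵ_ 2 : Cardinal.{0}).out → ℕ → ℕ, Function.Surjective E) ↔
      (𝔠 : Cardinal.{0}) ≤ ℵ_ 2) ∧
    (MartinAxiomAleph1 → (ℵ₁ : Cardinal.{0}) < 𝔠 ∧
      ((𝔠 : Cardinal.{0}) ≤ ℵ_ 2 → MartinAxiomSigmaCentered)) ∧
    ((ℵ₁ : Cardinal.{0}) = 𝔠 → MartinAxiomSigmaCentered) ∧
    (MartinAxiomSigmaCentered → ∀ k : ℕ, 2 ≤ k → ∃ G : Subgroup (Equiv.Perm ℕ),
      TransOnSections G k ∧ TransOnOrderedSections G k ∧ ManyOrbits G (k + 1) ∧
        ¬ TransOnSections G (k + 1) ∧ Cofinitary G) := by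
  refine ⟨Pool.Agent.W910.FC.exists_forcing, martinFor_om1_iff, ?_,
    fun h => ⟨Pool.Agent.Y561.KS.aleph_one_lt_of_ma h, fun hc =>
      Pool.Agent.Y561.KS.ma_sigma_of_ma h hc⟩,
    fun h => Pool.Agent.Y561.KS.ma_of_ch h, ?_⟩
  · have h1 : #(ℕ → ℕ) = (𝔠 : Cardinal.{0}) := by
      simp
    constructor
    · rintro ⟨E, hE⟩
      have h2 := mk_le_of_surjective hE
      rwa [h1, mk_out] at h2
    · intro h
      rw [← h1, ← mk_out (ℵ_ 2)] at h
      obtain ⟨e⟩ := h
      exact ⟨Function.invFun e, Function.invFun_surjective e.injective⟩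
  · intro hMA k hk
    obtain ⟨G, h1, h2, h3, h4⟩ := Pool.Agent.Y302.PS.ma_orbits (ma_convert hMA) k hk
    exact ⟨G, h2, h1, h3, h3.not_trans, h4⟩

end Pool.Agent.Results.MP_618ed1_al.MartinsAxiomForced
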